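import Pool.Agent.BEN.StmtsB

/-!
# Squad BEN (MP_be01ff_an), row INQ: inclusions between the spaces `L^p`
-/

namespace Pool.Agent.BEN.H79

open Set Filter Topology MeasureTheory
open scoped InnerProductSpace ENNReal
open Pool.Agent.BE01 Pool.Agent.BEL Pool.Agent.BEF Pool.Agent.BEH Pool.Agent.BEN

noncomputable section

theorem exp_mem {p q : ℝ≥0∞} (hp : 1 ≤ p) (hq : 1 ≤ q) (h : q ≤ p) :
    0 ≤ 1 / q.toReal - 1 / p.toReal ∧ 1 / q.toReal - 1 / p.toReal ≤ 1 := by
  by_cases hqt : q = ⊤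
  · have hpt : p = ⊤ := top_le_iff.1 (hqt ▸ h)
    rw [hqt, hpt]
    simp
  · have hq1 : 1 ≤ q.toReal := by
      have := (ENNReal.toReal_le_toReal (by simp) hqt).2 hq
      rwa [ENNReal.toReal_one] at this
    have hq0 : 0 < q.toReal := by linarith
    have hq2 : 1 / q.toReal ≤ 1 := by
      rw [div_le_one hq0]
      exact hq1
    by_cases hpt : p = ⊤
    · rw [hpt, ENNReal.toReal_top, div_zero, sub_zero]
      exact ⟨by positivity, hq2⟩
    · have hp1 : q.toReal ≤ p.toReal := (ENNReal.toReal_le_toReal hqt hpt).2 h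
      have h1 : 1 / p.toReal ≤ 1 / q.toReal := one_div_le_one_div_of_le hq0 hp1
      have h2 : 0 ≤ 1 / p.toReal := by positivity
      exact ⟨by linarith, by linarith⟩

theorem pow_bound {T : Type} [MeasurableSpace T] (μ : Measure T) [IsFiniteMeasure μ] (e V : ℝ)
    (h0 : 0 ≤ e) (h1 : e ≤ 1) (hV : μ.real univ ≤ V) :
    μ univ ^ e ≤ ENNReal.ofReal (max 1 V) := by
  have h2 : μ univ ≤ ENNReal.ofReal (max 1 V) := by
    rw [← ENNReal.ofReal_toReal (measure_ne_top μ univ)]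
    exact ENNReal.ofReal_le_ofReal (hV.trans (le_max_right _ _))
  have h3 : (1 : ℝ≥0∞) ≤ ENNReal.ofReal (max 1 V) := by
    rw [← ENNReal.ofReal_one]
    exact ENNReal.ofReal_le_ofReal (le_max_left _ _)
  refine (ENNReal.rpow_le_rpow h2 h0).trans ?_
  refine (ENNReal.rpow_le_rpow_of_exponent_le h3 h1).trans (le_of_eq ?_)
  rw [ENNReal.rpow_one]

theorem inq : InqStmt := by
  intro T _ μ _ p q hp hq V hqp hV
  have hm : ∀ f : Lp ℝ p μ, MemLp f q μ := fun f => (Lp.memLp f).mono_exponent hqp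
  have hM : 0 ≤ max 1 V := le_trans zero_le_one (le_max_left _ _)
  have hb : ∀ f : Lp ℝ p μ, ‖(hm f).toLp f‖ ≤ max 1 V * ‖f‖ := by
    intro f
    rw [Lp.norm_toLp, Lp.norm_def, mul_comm]
    have h1 := eLpNorm_le_eLpNorm_mul_rpow_measure_univ (μ := μ) (f := f) hqp
      (Lp.aestronglyMeasurable f)
    have he := exp_mem hp.out hq.out hqp
    have h2 := pow_bound μ _ V he.1 he.2 hV
    have h3 : eLpNorm f q μ ≤ eLpNorm f p μ * ENNReal.ofReal (max 1 V) :=
      h1.trans (by gcongr)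
    have h4 : eLpNorm f p μ * ENNReal.ofReal (max 1 V) ≠ ⊤ :=
      ENNReal.mul_ne_top (Lp.eLpNorm_ne_top f) ENNReal.ofReal_ne_top
    have h5 := (ENNReal.toReal_le_toReal (ne_top_of_le_ne_top h4 h3) h4).2 h3
    rwa [ENNReal.toReal_mul, ENNReal.toReal_ofReal hM] at h5
  let L : Lp ℝ p μ →ₗ[ℝ] Lp ℝ q μ :=
    { toFun := fun f => (hm f).toLp f
      map_add' := by
        intro f g
        refine Lp.ext ?_
        filter_upwards [(hm (f + g)).coeFn_toLp, (hm f).coeFn_toLp, (hm g).coeFn_toLp,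
          Lp.coeFn_add f g, Lp.coeFn_add ((hm f).toLp f) ((hm g).toLp g)] with x h1 h2 h3 h4 h5
        rw [h1, h4, h5, Pi.add_apply, Pi.add_apply, h2, h3]
      map_smul' := by
        intro c f
        refine Lp.ext ?_
        filter_upwards [(hm (c • f)).coeFn_toLp, (hm f).coeFn_toLp,
          Lp.coeFn_smul c f, Lp.coeFn_smul c ((hm f).toLp f)] with x h1 h2 h3 h4
        rw [RingHom.id_apply, h1, h3, h4, Pi.smul_apply, Pi.smul_apply, h2] }
  have hL : ∀ f : Lp ℝ p μ, ⇑(L.mkContinuous (max 1 V) hb f) =ᵐ[μ] ⇑f := fun f =>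
    (hm f).coeFn_toLp
  refine ⟨L.mkContinuous (max 1 V) hb, hL, ?_, hb⟩
  intro f g hfg
  refine Lp.ext ?_
  have h1 := hL f
  have h2 := hL g
  rw [hfg] at h1
  exact h1.symm.trans h2

end

end Pool.Agent.BEN.H79
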