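import Pool.Agent.BEN.StmtsA

/-!
# Squad BEN (MP_be01ff_an), row NEX: the damping is strictly negative
-/

namespace Pool.Agent.BEN.H79

open Set Filter Topology MeasureTheory
open scoped InnerProductSpace ENNReal
open Pool.Agent.BE01 Pool.Agent.BEF Pool.Agent.BEN

noncomputable section

variable {X H : Type} [NormedCommRing X] [NormedAlgebra ℝ X] [NormedAddCommGroup H]
  [InnerProductSpace ℝ H] {m : ℕ}

/-- The integrand. -/
def gg (W : Wx X H) (p : ℕ) (φ : Fin m → X) (ψ : ℝ) (z : Fin m ⊕ Fin m → ℝ) : ℝ :=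
  ⟪W.e (px φ ψ z ^ (2 * p + 1)), W.e (px φ ψ z)⟫_ℝ

/-- The integral over a period. -/
def GG (W : Wx X H) (p : ℕ) (φ : Fin m → X) (z : Fin m ⊕ Fin m → ℝ) : ℝ :=
  ∫ ψ in (0 : ℝ)..(2 * Real.pi), gg W p φ ψ z

theorem px_cont (φ : Fin m → X) :
    Continuous fun q : (Fin m ⊕ Fin m → ℝ) × ℝ => px φ q.2 q.1 := by
  unfold px
  refine continuous_finsetSum _ fun i _ => ?_
  refine Continuous.smul ?_ continuous_const
  have h1 : Continuous fun q : (Fin m ⊕ Fin m → ℝ) × ℝ => q.1 (Sum.inr i) :=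
    (continuous_apply _).comp continuous_fst
  have h2 : Continuous fun q : (Fin m ⊕ Fin m → ℝ) × ℝ => q.1 (Sum.inl i) :=
    (continuous_apply _).comp continuous_fst
  exact (h1.mul (Real.continuous_cos.comp continuous_snd)).sub
    (h2.mul (Real.continuous_sin.comp continuous_snd))

theorem gg_cont (W : Wx X H) (p : ℕ) (φ : Fin m → X) :
    Continuous fun q : (Fin m ⊕ Fin m → ℝ) × ℝ => gg W p φ q.2 q.1 := by
  unfold gg
  exact (W.e.continuous.comp ((px_cont φ).pow _)).inner (W.e.continuous.comp (px_cont φ))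

theorem gg_cont1 (W : Wx X H) (p : ℕ) (φ : Fin m → X) (z : Fin m ⊕ Fin m → ℝ) :
    Continuous fun ψ : ℝ => gg W p φ ψ z :=
  (gg_cont W p φ).comp (continuous_const.prodMk continuous_id)

theorem GG_cont (W : Wx X H) (p : ℕ) (φ : Fin m → X) : Continuous (GG W p φ) := by
  have h := gg_cont W p φ
  exact intervalIntegral.continuous_parametric_intervalIntegral_of_continuous'
    (f := fun (z : Fin m ⊕ Fin m → ℝ) (ψ : ℝ) => gg W p φ ψ z) h 0 (2 * Real.pi)

theorem px_smul (φ : Fin m → X) (ψ t : ℝ) (z : Fin m ⊕ Fin m → ℝ) :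
    px φ ψ (t • z) = t • px φ ψ z := by
  unfold px
  rw [Finset.smul_sum]
  refine Finset.sum_congr rfl fun i _ => ?_
  rw [smul_smul]
  congr 1
  simp only [Pi.smul_apply, smul_eq_mul]
  ring

theorem gg_smul (W : Wx X H) (p : ℕ) (φ : Fin m → X) (ψ t : ℝ) (z : Fin m ⊕ Fin m → ℝ) :
    gg W p φ ψ (t • z) = (t ^ 2) ^ (p + 1) * gg W p φ ψ z := by
  unfold gg
  rw [px_smul, smul_pow, map_smul, map_smul, real_inner_smul_left, real_inner_smul_right]
  ring

theorem GG_smul (W : Wx X H) (p : ℕ) (φ : Fin m → X) (t : ℝ) (z : Fin m ⊕ Fin m → ℝ) :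
    GG W p φ (t • z) = (t ^ 2) ^ (p + 1) * GG W p φ z := by
  unfold GG
  rw [← intervalIntegral.integral_const_mul]
  refine intervalIntegral.integral_congr fun ψ _ => ?_
  exact gg_smul W p φ ψ t z

theorem gg_nonneg (W : Wx X H) (p : ℕ) (φ : Fin m → X)
    (hp : ∀ x : X, x ≠ 0 → 0 < ⟪W.e (x ^ (2 * p + 1)), W.e x⟫_ℝ) (ψ : ℝ)
    (z : Fin m ⊕ Fin m → ℝ) : 0 ≤ gg W p φ ψ z := by
  unfold gg
  by_cases h : px φ ψ z = 0
  · rw [h, map_zero, inner_zero_right]
  · exact (hp _ h).le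

/-- A vanishing combination of the `φ i` is trivial. -/
theorem lin_ind (W : Wx X H) (φ : Fin m → X) (ho : Orthonormal ℝ (fun i => W.e (φ i)))
    (a : Fin m → ℝ) (h : ∑ i, a i • φ i = 0) (i : Fin m) : a i = 0 := by
  have h1 : ∑ i, a i • W.e (φ i) = 0 := by
    have h2 := congrArg W.e h
    rw [map_sum, map_zero] at h2
    rw [← h2]
    exact Finset.sum_congr rfl fun i _ => (map_smul W.e (a i) (φ i)).symm
  exact Fintype.linearIndependent_iff.1 ho.linearIndependent a h1 i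

theorem GG_pos (W : Wx X H) (p : ℕ) (φ : Fin m → X)
    (ho : Orthonormal ℝ (fun i => W.e (φ i)))
    (hp : ∀ x : X, x ≠ 0 → 0 < ⟪W.e (x ^ (2 * p + 1)), W.e x⟫_ℝ)
    (z : Fin m ⊕ Fin m → ℝ) (hz : z ≠ 0) : 0 < GG W p φ z := by
  have hpi := Real.pi_pos
  refine intervalIntegral.integral_pos (by linarith) (gg_cont1 W p φ z).continuousOn
    (fun ψ _ => gg_nonneg W p φ hp ψ z) ?_
  by_contra hcon
  push Not at hcon
  apply hz
  have h0 : px φ 0 z = 0 := by
    by_contra h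
    exact absurd (hcon 0 ⟨le_rfl, by linarith⟩) (not_le.2 (hp _ h))
  have h1 : px φ (Real.pi / 2) z = 0 := by
    by_contra h
    exact absurd (hcon (Real.pi / 2) ⟨by linarith, by linarith⟩) (not_le.2 (hp _ h))
  have h2 : ∑ i, z (Sum.inr i) • φ i = 0 := by
    rw [← h0]
    unfold px
    refine Finset.sum_congr rfl fun i _ => ?_
    rw [Real.cos_zero, Real.sin_zero, mul_one, mul_zero, sub_zero]
  have h3 : ∑ i, (- z (Sum.inl i)) • φ i = 0 := by
    rw [← h1]
    unfold px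
    refine Finset.sum_congr rfl fun i _ => ?_
    rw [Real.cos_pi_div_two, Real.sin_pi_div_two, mul_one, mul_zero, zero_sub]
  funext j
  rcases j with i | i
  · have := lin_ind W φ ho _ h3 i
    show z (Sum.inl i) = 0
    linarith
  · exact lin_ind W φ ho _ h2 i

theorem nex : NexStmt := by
  intro X H _ _ _ _ W m p ω φ hp1 hE hp
  have ho := hE.1
  obtain ⟨K, hK⟩ : ∃ K : Set (Fin m ⊕ Fin m → ℝ), K = {z | ∑ i, z i ^ 2 = 1} := ⟨_, rfl⟩
  have hfc : Continuous fun z : Fin m ⊕ Fin m → ℝ => ∑ i, z i ^ 2 :=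
    continuous_finsetSum _ fun i _ => (continuous_apply i).pow 2
  have hKc : IsCompact K := by
    refine Metric.isCompact_of_isClosed_isBounded ?_ ?_
    · rw [hK]
      exact isClosed_eq hfc continuous_const
    · refine (Metric.isBounded_closedBall (x := (0 : Fin m ⊕ Fin m → ℝ)) (r := 1)).subset ?_
      intro z hz
      rw [hK] at hz
      rw [mem_closedBall_zero_iff, pi_norm_le_iff_of_nonneg zero_le_one]
      intro i
      have h1 : z i ^ 2 ≤ ∑ i, z i ^ 2 :=
        Finset.single_le_sum (f := fun i => z i ^ 2) (fun j _ => sq_nonneg _) (Finset.mem_univ i)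
      have h2 : ∑ i, z i ^ 2 = 1 := hz
      rw [Real.norm_eq_abs]
      exact abs_le_of_sq_le_sq (a := z i) (b := 1) (by rw [one_pow]; linarith) zero_le_one
  -- scaling
  have hsc : ∀ (c : ℝ), (∀ z ∈ K, c ≤ GG W p φ z) →
      ∀ z : Fin m ⊕ Fin m → ℝ, c * (∑ i, z i ^ 2) ^ (p + 1) ≤ GG W p φ z := by
    intro c hc z
    have hs0 : 0 ≤ ∑ i, z i ^ 2 := Finset.sum_nonneg fun i _ => sq_nonneg _
    rcases hs0.eq_or_lt with h | h
    · rw [← h, zero_pow (Nat.succ_ne_zero p), mul_zero]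
      refine intervalIntegral.integral_nonneg (by have := Real.pi_pos; linarith) fun ψ _ => ?_
      exact gg_nonneg W p φ hp ψ z
    · obtain ⟨s, hs⟩ : ∃ s : ℝ, s = Real.sqrt (∑ i, z i ^ 2) := ⟨_, rfl⟩
      have hspos : 0 < s := by rw [hs]; exact Real.sqrt_pos.2 h
      have hs2 : s ^ 2 = ∑ i, z i ^ 2 := by rw [hs]; exact Real.sq_sqrt h.le
      have hz : s • (s⁻¹ • z) = z := by rw [smul_smul, mul_inv_cancel₀ hspos.ne', one_smul]
      have hmem : s⁻¹ • z ∈ K := by
        rw [hK]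
        show ∑ i, (s⁻¹ • z) i ^ 2 = 1
        simp only [Pi.smul_apply, smul_eq_mul, mul_pow]
        rw [← Finset.mul_sum, ← hs2, ← mul_pow, inv_mul_cancel₀ hspos.ne', one_pow]
      have h1 := hc _ hmem
      have h2 := GG_smul W p φ s (s⁻¹ • z)
      rw [hz] at h2
      rw [h2, ← hs2, mul_comm c]
      exact mul_le_mul_of_nonneg_left h1 (by positivity)
  rcases K.eq_empty_or_nonempty with hne | hne
  · refine ⟨1, one_pos, fun z => ?_⟩
    have := hsc 1 (fun z hz => by rw [hne] at hz; exact hz.elim) z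
    exact this
  · obtain ⟨z0, hz0, hmin⟩ := hKc.exists_isMinOn hne (GG_cont W p φ).continuousOn
    have hz0' : z0 ≠ 0 := by
      intro h
      rw [hK, h] at hz0
      have h1 : ∑ i, (0 : Fin m ⊕ Fin m → ℝ) i ^ 2 = 1 := hz0
      simp at h1
    refine ⟨GG W p φ z0, GG_pos W p φ ho hp z0 hz0', fun z => ?_⟩
    exact hsc _ (fun z hz => hmin hz) z

end

end Pool.Agent.BEN.H79
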